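import Mathlib

/-! # A second moment estimate (helper70) -/

set_option autoImplicit false

open MeasureTheory Finset
open scoped ENNReal

namespace Pool.Agent.K3h70.WB

/-- among pairwise independent events of probability `v` some one happens, with probability at least
`1 - 1 / (|R| v)` -/
lemma second_moment {Ω ι : Type} [MeasurableSpace Ω] (μ : Measure Ω) [IsProbabilityMeasure μ]
    (R : Finset ι) (S : ι → Set Ω) (hS : ∀ i ∈ R, MeasurableSet (S i)) (v : ℝ) (hv : 0 < v)
    (h1 : ∀ i ∈ R, μ.real (S i) = v) (h2 : ∀ i ∈ R, ∀ j ∈ R, i ≠ j → μ.real (S i ∩ S j) = v ^ 2) :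
    (R.card : ℝ) * v * μ.real {x | ∀ i ∈ R, x ∉ S i} ≤ 1 := by
  classical
  rcases R.card.eq_zero_or_pos with h0 | h0
  · rw [h0]; simp
  have hM : (0 : ℝ) < R.card := by exact_mod_cast h0
  set M : ℝ := (R.card : ℝ) with hMdef
  set f : ι → Ω → ℝ := fun i => (S i).indicator 1 with hf
  have hfint : ∀ i ∈ R, Integrable (f i) μ := fun i hi =>
    (integrable_const (1 : ℝ)).indicator (hS i hi)
  have hfval : ∀ i ∈ R, ∫ x, f i x ∂μ = v := by
    intro i hi
    rw [hf]
    simp only
    rw [integral_indicator_one (hS i hi), h1 i hi]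
  have hff : ∀ i j, (fun x => f i x * f j x) = (S i ∩ S j).indicator 1 := by
    intro i j
    rw [hf]
    funext x
    simp only
    rw [← Set.inter_indicator_mul]
    simp only [Pi.one_apply, mul_one]
    rfl
  have hffint : ∀ i ∈ R, ∀ j ∈ R, Integrable (fun x => f i x * f j x) μ := by
    intro i hi j hj
    rw [hff]
    exact (integrable_const (1 : ℝ)).indicator ((hS i hi).inter (hS j hj))
  have hffval : ∀ i ∈ R, ∀ j ∈ R, ∫ x, f i x * f j x ∂μ = v ^ 2 + if i = j then v - v ^ 2 else 0 := by
    intro i hi j hj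
    rw [hff, integral_indicator_one ((hS i hi).inter (hS j hj))]
    split_ifs with h
    · subst h
      rw [Set.inter_self, h1 i hi]; ring
    · rw [h2 i hi j hj h]; ring
  set G : Ω → ℝ := fun x => ∑ i ∈ R, f i x with hG
  have hGint : Integrable G μ := integrable_finsetSum _ hfint
  have hGval : ∫ x, G x ∂μ = M * v := by
    rw [hG, integral_finsetSum _ hfint, Finset.sum_congr rfl hfval, Finset.sum_const, nsmul_eq_mul]
  have hGG : (fun x => G x ^ 2) = fun x => ∑ i ∈ R, ∑ j ∈ R, f i x * f j x := by
    funext x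
    rw [hG]
    simp only
    rw [sq, Finset.sum_mul_sum]
  have hGGint : Integrable (fun x => G x ^ 2) μ := by
    rw [hGG]
    exact integrable_finsetSum _ fun i hi => integrable_finsetSum _ fun j hj => hffint i hi j hj
  have hGGval : ∫ x, G x ^ 2 ∂μ = M ^ 2 * v ^ 2 + M * (v - v ^ 2) := by
    rw [hGG, integral_finsetSum _ fun i hi => integrable_finsetSum _ fun j hj => hffint i hi j hj]
    have h3 : ∀ i ∈ R, ∫ x, ∑ j ∈ R, f i x * f j x ∂μ = M * v ^ 2 + (v - v ^ 2) := by
      intro i hi
      rw [integral_finsetSum _ fun j hj => hffint i hi j hj, Finset.sum_congr rfl (hffval i hi),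
        Finset.sum_add_distrib, Finset.sum_const, nsmul_eq_mul, Finset.sum_ite_eq]
      rw [if_pos hi]
    rw [Finset.sum_congr rfl h3, Finset.sum_const, nsmul_eq_mul]
    ring
  have hmain : ∫ x, (G x - M * v) ^ 2 ∂μ = M * (v - v ^ 2) := by
    have h4 : (fun x => (G x - M * v) ^ 2) = fun x => G x ^ 2 - 2 * (M * v) * G x + (M * v) ^ 2 := by
      funext x; ring
    have i1 : Integrable (fun x => G x ^ 2 - 2 * (M * v) * G x) μ := hGGint.sub (hGint.const_mul _)
    rw [h4, integral_add i1 (integrable_const _),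
      integral_sub hGGint (hGint.const_mul _), integral_const_mul, hGGval, hGval]
    simp
    ring
  have hint : Integrable (fun x => (G x - M * v) ^ 2) μ := by
    have h4 : (fun x => (G x - M * v) ^ 2) = fun x => G x ^ 2 - 2 * (M * v) * G x + (M * v) ^ 2 := by
      funext x; ring
    rw [h4]
    exact (hGGint.sub (hGint.const_mul _)).add (integrable_const _)
  set Z : Set Ω := {x | ∀ i ∈ R, x ∉ S i} with hZ
  have hZm : MeasurableSet Z := by
    have : Z = ⋂ i ∈ R, (S i)ᶜ := by
      ext x
      simp [hZ]
    rw [this]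
    exact Finset.measurableSet_biInter _ fun i hi => (hS i hi).compl
  have hlow : (M * v) ^ 2 * μ.real Z ≤ ∫ x, (G x - M * v) ^ 2 ∂μ := by
    have h5 : ∫ x, Z.indicator (fun _ => (M * v) ^ 2) x ∂μ = (M * v) ^ 2 * μ.real Z := by
      rw [integral_indicator hZm, setIntegral_const, smul_eq_mul, mul_comm]
    rw [← h5]
    apply integral_mono ((integrable_const _).indicator hZm) hint
    intro x
    by_cases hx : x ∈ Z
    · rw [Set.indicator_of_mem hx]
      have hG0 : G x = 0 := by
        rw [hG]
        simp only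
        apply Finset.sum_eq_zero
        intro i hi
        rw [hf]
        simp only
        exact Set.indicator_of_notMem (hx i hi) _
      simp only [hG0, zero_sub, neg_sq]
      exact le_refl _
    · rw [Set.indicator_of_notMem hx]
      positivity
  rw [hmain] at hlow
  have h6 : (M * v) * (M * v * μ.real Z) ≤ (M * v) * 1 := by nlinarith [sq_nonneg v]
  exact le_of_mul_le_mul_left h6 (by positivity)

end Pool.Agent.K3h70.WB
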