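import Mathlib
import Pool.Agent.K3h70.WB.Moment

/-! # The multiples `r α` of a point of the circle are pairwise independent (helper70) -/

set_option autoImplicit false

open MeasureTheory Finset
open scoped ENNReal

namespace Pool.Agent.K3h70.WB

lemma meas_one (n : ℕ) {I : Set UnitAddCircle} (hI : MeasurableSet I) :
    (volume : Measure (UnitAddCircle × UnitAddCircle)) {p | n • p.1 - p.2 ∈ I} = volume I := by
  have hm : MeasurableSet {p : UnitAddCircle × UnitAddCircle | n • p.1 - p.2 ∈ I} := by
    have : Measurable fun p : UnitAddCircle × UnitAddCircle => n • p.1 - p.2 := by fun_prop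
    exact this hI
  rw [Measure.volume_eq_prod, Measure.prod_apply hm]
  have : ∀ x : UnitAddCircle, volume (Prod.mk x ⁻¹'
      {p : UnitAddCircle × UnitAddCircle | n • p.1 - p.2 ∈ I}) = volume I := by
    intro x
    exact (Measure.measurePreserving_sub_left volume (n • x)).measure_preimage hI.nullMeasurableSet
  simp only [this, lintegral_const, UnitAddCircle.measure_univ, mul_one]

lemma meas_two {n m : ℕ} (hnm : n ≠ m) {I : Set UnitAddCircle} (hI : MeasurableSet I) :
    (volume : Measure (UnitAddCircle × UnitAddCircle))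
      {p | n • p.1 - p.2 ∈ I ∧ m • p.1 - p.2 ∈ I} = volume I * volume I := by
  have hm : ∀ n : ℕ, MeasurableSet {p : UnitAddCircle × UnitAddCircle | n • p.1 - p.2 ∈ I} := by
    intro n
    have : Measurable fun p : UnitAddCircle × UnitAddCircle => n • p.1 - p.2 := by fun_prop
    exact this hI
  have hm2 : MeasurableSet {p : UnitAddCircle × UnitAddCircle |
      n • p.1 - p.2 ∈ I ∧ m • p.1 - p.2 ∈ I} := (hm n).inter (hm m)
  set d : ℤ := (n : ℤ) - m with hd
  have hd0 : d ≠ 0 := by
    rw [hd]; omega
  have hm3 : MeasurableSet {p : UnitAddCircle × UnitAddCircle | d • p.1 + p.2 ∈ I ∧ p.2 ∈ I} := by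
    have h1 : Measurable fun p : UnitAddCircle × UnitAddCircle => d • p.1 + p.2 := by fun_prop
    have h2 : Measurable fun p : UnitAddCircle × UnitAddCircle => p.2 := measurable_snd
    exact (h1 hI).inter (h2 hI)
  rw [Measure.volume_eq_prod, Measure.prod_apply hm2]
  have h1 : ∀ x : UnitAddCircle, volume (Prod.mk x ⁻¹'
      {p : UnitAddCircle × UnitAddCircle | n • p.1 - p.2 ∈ I ∧ m • p.1 - p.2 ∈ I}) =
      volume (Prod.mk x ⁻¹' {p : UnitAddCircle × UnitAddCircle | d • p.1 + p.2 ∈ I ∧ p.2 ∈ I}) := by
    intro x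
    have h2 := (Measure.measurePreserving_sub_left (volume : Measure UnitAddCircle) (m • x)).measure_preimage
      (s := Prod.mk x ⁻¹'
        {p : UnitAddCircle × UnitAddCircle | n • p.1 - p.2 ∈ I ∧ m • p.1 - p.2 ∈ I})
      (measurable_prodMk_left hm2).nullMeasurableSet
    rw [← h2]
    congr 1
    ext y
    simp only [Set.mem_preimage, Set.mem_ofPred_eq]
    have e1 : n • x - (m • x - y) = d • x + y := by
      rw [hd, sub_zsmul, natCast_zsmul, natCast_zsmul]; abel
    have e2 : m • x - (m • x - y) = y := by abel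
    rw [e1, e2]
  simp only [h1]
  rw [← Measure.prod_apply hm3, Measure.prod_apply_symm hm3]
  have h3 : ∀ y : UnitAddCircle, volume ((fun x => (x, y)) ⁻¹'
      {p : UnitAddCircle × UnitAddCircle | d • p.1 + p.2 ∈ I ∧ p.2 ∈ I}) =
      I.indicator (fun _ => volume I) y := by
    intro y
    by_cases hy : y ∈ I
    · rw [Set.indicator_of_mem hy]
      have h4 := ((measurePreserving_add_right (volume : Measure UnitAddCircle) y).comp
        (Measure.measurePreserving_zsmul (volume : Measure UnitAddCircle) hd0)).measure_preimage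
          hI.nullMeasurableSet
      rw [← h4]
      congr 1
      ext x
      simp [hy]
    · rw [Set.indicator_of_notMem hy]
      have : ((fun x => (x, y)) ⁻¹'
        {p : UnitAddCircle × UnitAddCircle | d • p.1 + p.2 ∈ I ∧ p.2 ∈ I}) = ∅ := by
        ext x
        simp [hy]
      rw [this, measure_empty]
  simp only [h3]
  rw [lintegral_indicator hI, setLIntegral_const]

/-- the points `β` of the circle which are at distance more than `ρ` from all `r α`, `r ∈ R` -/
def missed (R : Finset ℕ) (ρ : ℝ) (α : UnitAddCircle) : Set UnitAddCircle :=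
  {β | ∀ r ∈ R, r • α - β ∉ Metric.closedBall (0 : UnitAddCircle) ρ}

lemma measurable_miss (R : Finset ℕ) (ρ : ℝ) : MeasurableSet
    {p : UnitAddCircle × UnitAddCircle | p.2 ∈ missed R ρ p.1} := by
  have : {p : UnitAddCircle × UnitAddCircle | p.2 ∈ missed R ρ p.1} =
      ⋂ r ∈ R, {p : UnitAddCircle × UnitAddCircle |
        r • p.1 - p.2 ∈ Metric.closedBall (0 : UnitAddCircle) ρ}ᶜ := by
    ext p
    simp [missed]
  rw [this]
  refine Finset.measurableSet_biInter _ fun r _ => MeasurableSet.compl ?_
  have : Measurable fun p : UnitAddCircle × UnitAddCircle => r • p.1 - p.2 := by fun_prop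
  exact this measurableSet_closedBall

/-- the points `α` with a large missed set -/
def large (R : Finset ℕ) (ρ : ℝ) : Set UnitAddCircle :=
  {α | 1 / 2 ≤ volume (missed R ρ α)}

lemma measurable_large (R : Finset ℕ) (ρ : ℝ) : MeasurableSet (large R ρ) := by
  have h1 : Measurable fun α : UnitAddCircle => volume (Prod.mk α ⁻¹'
      {p : UnitAddCircle × UnitAddCircle | p.2 ∈ missed R ρ p.1}) :=
    measurable_measure_prodMk_left (measurable_miss R ρ)
  exact h1 measurableSet_Ici

lemma vol_large (R : Finset ℕ) (ρ : ℝ) (hρ : 0 < ρ) (hρ1 : ρ ≤ 1 / 2) :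
    (R.card : ℝ) * ρ * volume.real (large R ρ) ≤ 1 := by
  have i0 : IsProbabilityMeasure (volume : Measure UnitAddCircle) := ⟨UnitAddCircle.measure_univ⟩
  have i1 : IsProbabilityMeasure (volume : Measure (UnitAddCircle × UnitAddCircle)) := by
    rw [Measure.volume_eq_prod]; infer_instance
  have hI : MeasurableSet (Metric.closedBall (0 : UnitAddCircle) ρ) := measurableSet_closedBall
  have hIv : volume (Metric.closedBall (0 : UnitAddCircle) ρ) = ENNReal.ofReal (2 * ρ) := by
    rw [AddCircle.volume_closedBall, min_eq_right (by linarith)]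
  have h1 := second_moment (volume : Measure (UnitAddCircle × UnitAddCircle)) R
    (fun r => {p | r • p.1 - p.2 ∈ Metric.closedBall (0 : UnitAddCircle) ρ})
    (fun r _ => by
      have : Measurable fun p : UnitAddCircle × UnitAddCircle => r • p.1 - p.2 := by fun_prop
      exact this hI)
    (2 * ρ) (by linarith)
    (fun r _ => by
      rw [measureReal_def, meas_one r hI, hIv, ENNReal.toReal_ofReal (by linarith)])
    (fun r _ r' _ hrr => by
      have h2 : {p : UnitAddCircle × UnitAddCircle | r • p.1 - p.2 ∈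
          Metric.closedBall (0 : UnitAddCircle) ρ} ∩ {p : UnitAddCircle × UnitAddCircle |
          r' • p.1 - p.2 ∈ Metric.closedBall (0 : UnitAddCircle) ρ} =
          {p : UnitAddCircle × UnitAddCircle | r • p.1 - p.2 ∈
          Metric.closedBall (0 : UnitAddCircle) ρ ∧ r' • p.1 - p.2 ∈
          Metric.closedBall (0 : UnitAddCircle) ρ} := rfl
      rw [measureReal_def, h2, meas_two hrr hI, hIv, ENNReal.toReal_mul,
        ENNReal.toReal_ofReal (by linarith), sq])
  have h3 : {x : UnitAddCircle × UnitAddCircle | ∀ i ∈ R, x ∉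
      {p : UnitAddCircle × UnitAddCircle | i • p.1 - p.2 ∈
        Metric.closedBall (0 : UnitAddCircle) ρ}} =
      {p : UnitAddCircle × UnitAddCircle | p.2 ∈ missed R ρ p.1} := rfl
  rw [h3] at h1
  -- Markov
  have h4 : (1 / 2 : ℝ≥0∞) * volume (large R ρ) ≤
      volume {p : UnitAddCircle × UnitAddCircle | p.2 ∈ missed R ρ p.1} := by
    rw [Measure.volume_eq_prod, Measure.prod_apply (measurable_miss R ρ)]
    exact mul_meas_ge_le_lintegral (measurable_measure_prodMk_left (measurable_miss R ρ)) _
  have h5 : (1 / 2 : ℝ) * volume.real (large R ρ) ≤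
      volume.real {p : UnitAddCircle × UnitAddCircle | p.2 ∈ missed R ρ p.1} := by
    rw [measureReal_def, measureReal_def]
    have := ENNReal.toReal_mono (measure_ne_top _ _) h4
    rw [ENNReal.toReal_mul] at this
    simpa using this
  have h6 : 0 ≤ (R.card : ℝ) * ρ := by positivity
  nlinarith

/-- outside the large set every point is close to some `(r + r') α` -/
lemma two_sum_circle (R : Finset ℕ) (ρ : ℝ) (α : UnitAddCircle) (hα : α ∉ large R ρ)
    (γ : UnitAddCircle) : ∃ r ∈ R, ∃ r' ∈ R, ‖(r + r') • α - γ‖ ≤ 2 * ρ := by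
  set M := missed R ρ α with hM
  have hMm : MeasurableSet M := measurable_prodMk_left (measurable_miss R ρ)
  have hMv : volume M < 1 / 2 := not_le.1 hα
  have h1 : volume ((fun t => γ - t) ⁻¹' M) = volume M :=
    (Measure.measurePreserving_sub_left (volume : Measure UnitAddCircle) γ).measure_preimage
      hMm.nullMeasurableSet
  have h2 : volume (M ∪ (fun t => γ - t) ⁻¹' M) < 1 := by
    calc volume (M ∪ (fun t => γ - t) ⁻¹' M) ≤ volume M + volume ((fun t => γ - t) ⁻¹' M) :=
          measure_union_le _ _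
      _ = volume M + volume M := by rw [h1]
      _ < 1 / 2 + 1 / 2 := ENNReal.add_lt_add hMv hMv
      _ = 1 := ENNReal.add_halves 1
  have h3 : (M ∪ (fun t => γ - t) ⁻¹' M) ≠ Set.univ := by
    intro h
    rw [h, UnitAddCircle.measure_univ] at h2
    exact lt_irrefl _ h2
  obtain ⟨β, hβ⟩ := (Set.ne_univ_iff_exists_notMem _).1 h3
  rw [Set.mem_union, not_or] at hβ
  obtain ⟨hb1, hb2⟩ := hβ
  rw [hM] at hb1 hb2
  simp only [missed, Set.mem_preimage, Set.mem_ofPred_eq, not_forall, not_not] at hb1 hb2
  obtain ⟨r, hr, hr1⟩ := hb1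
  obtain ⟨r', hr', hr1'⟩ := hb2
  refine ⟨r, hr, r', hr', ?_⟩
  rw [mem_closedBall_zero_iff] at hr1 hr1'
  have e1 : (r + r') • α - γ = (r • α - β) + (r' • α - (γ - β)) := by
    rw [add_nsmul]; abel
  rw [e1]
  exact (norm_add_le _ _).trans (by linarith)

end Pool.Agent.K3h70.WB
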