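import Mathlib
import Pool.Agent.K3h70.WB.Circle
import Pool.Agent.R479.DA.Lim

/-! # The set of badly approximating `α` is covered by few cells (helper70) -/

set_option autoImplicit false

open MeasureTheory Finset
open scoped ENNReal

namespace Pool.Agent.K3h70.WB

/-- the reals `α` for which some `β` is at distance more than `ρ` from all `α (r + r')` modulo `1` -/
def BadR (R : Finset ℕ) (ρ : ℝ) : Set ℝ :=
  {α | ∃ β : ℝ, ∀ r ∈ R, ∀ r' ∈ R, ∀ z : ℤ, ρ < |α * ((r : ℝ) + r') - β - z|}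

lemma bad_large {R : Finset ℕ} {ρ : ℝ} {α : ℝ} (h : α ∈ BadR R (2 * ρ)) :
    (α : UnitAddCircle) ∈ large R ρ := by
  by_contra hα
  obtain ⟨β, hβ⟩ := h
  obtain ⟨r, hr, r', hr', h1⟩ := two_sum_circle R ρ (α : UnitAddCircle) hα (β : UnitAddCircle)
  have h2 : (r + r') • (α : UnitAddCircle) - (β : UnitAddCircle) =
      ((α * ((r : ℝ) + r') - β : ℝ) : UnitAddCircle) := by
    rw [AddCircle.coe_sub]
    congr 1
    rw [← AddCircle.coe_nsmul, nsmul_eq_mul]
    congr 1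
    push_cast
    ring
  rw [h2, UnitAddCircle.norm_eq] at h1
  have h3 := hβ r hr r' hr' (round (α * ((r : ℝ) + r') - β))
  linarith

lemma bad_stable {R : Finset ℕ} {N : ℝ} (hR : ∀ r ∈ R, 2 * (r : ℝ) ≤ N) {ρ α α' : ℝ}
    (h : α ∈ BadR R (3 * ρ)) (hα : |α' - α| * N ≤ ρ) : α' ∈ BadR R (2 * ρ) := by
  obtain ⟨β, hβ⟩ := h
  refine ⟨β, fun r hr r' hr' z => ?_⟩
  have h1 := hβ r hr r' hr' z
  have h2 : (r : ℝ) + r' ≤ N := by
    have := hR r hr
    have := hR r' hr'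
    linarith
  have h3 : |(α' - α) * ((r : ℝ) + r')| ≤ ρ := by
    rw [abs_mul, abs_of_nonneg (by positivity : (0 : ℝ) ≤ (r : ℝ) + r')]
    exact (mul_le_mul_of_nonneg_left h2 (abs_nonneg _)).trans hα
  have h4 : α * ((r : ℝ) + r') - β - z = (α' * ((r : ℝ) + r') - β - z) - (α' - α) * ((r : ℝ) + r') := by
    ring
  rw [h4] at h1
  have h5 := abs_sub (α' * ((r : ℝ) + r') - β - z) ((α' - α) * ((r : ℝ) + r'))
  linarith

open Classical in
/-- the cells of length `1 / K` which meet the bad set -/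
noncomputable def cells (R : Finset ℕ) (ρ : ℝ) (K : ℕ) : Finset ℕ :=
  (range K).filter fun i => (Set.Ioc ((i : ℝ) / K) (((i : ℝ) + 1) / K) ∩ BadR R (3 * ρ)).Nonempty

lemma cells_card {R : Finset ℕ} {N : ℝ} (hR : ∀ r ∈ R, 2 * (r : ℝ) ≤ N) {ρ : ℝ} (hρ : 0 < ρ)
    (hρ1 : ρ ≤ 1 / 2) {K : ℕ} (hK0 : 0 < K) (hK : N ≤ ρ * K) :
    ((cells R ρ K).card : ℝ) * ((R.card : ℝ) * ρ) ≤ K := by
  classical
  have hKR : (0 : ℝ) < K := by exact_mod_cast hK0
  set U : Set ℝ := ⋃ i ∈ cells R ρ K, Set.Ioc ((i : ℝ) / K) (((i : ℝ) + 1) / K) with hU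
  have hvol : volume U = ENNReal.ofReal ((cells R ρ K).card / K) := by
    rw [hU, measure_biUnion_finset]
    · have h1 : ∀ i ∈ cells R ρ K, volume (Set.Ioc ((i : ℝ) / K) (((i : ℝ) + 1) / K)) =
          ENNReal.ofReal (1 / K) := by
        intro i _
        rw [Real.volume_Ioc]
        congr 1
        ring
      rw [Finset.sum_congr rfl h1, Finset.sum_const, nsmul_eq_mul, ← ENNReal.ofReal_natCast,
        ← ENNReal.ofReal_mul (by positivity)]
      congr 1
      ring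
    · intro i _ j _ hij
      have key : ∀ i j : ℕ, i < j → Disjoint (Set.Ioc ((i : ℝ) / K) (((i : ℝ) + 1) / K))
          (Set.Ioc ((j : ℝ) / K) (((j : ℝ) + 1) / K)) := by
        intro i j h
        rw [Set.disjoint_left]
        rintro x ⟨_, h2⟩ ⟨h3, _⟩
        have h4 : ((i : ℝ) + 1) / K ≤ (j : ℝ) / K := by
          have : (i : ℝ) + 1 ≤ j := by exact_mod_cast h
          gcongr
        linarith
      rcases lt_or_gt_of_ne hij with h | h
      · exact key i j h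
      · exact (key j i h).symm
    · intro i _
      exact measurableSet_Ioc
  have hsub : U ⊆ Set.Ioc (0 : ℝ) (0 + 1) ∩ ((↑) : ℝ → UnitAddCircle) ⁻¹' (large R ρ) := by
    intro x hx
    rw [hU, Set.mem_iUnion₂] at hx
    obtain ⟨i, hi, hx⟩ := hx
    rw [cells, mem_filter, mem_range] at hi
    obtain ⟨hiK, y, hy, hyb⟩ := hi
    have hx1 := hx.1
    have hx2 := hx.2
    have hy1 := hy.1
    have hy2 := hy.2
    have e : ((i : ℝ) + 1) / K = (i : ℝ) / K + 1 / K := by ring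
    refine ⟨⟨lt_of_le_of_lt (by positivity) hx.1, ?_⟩, ?_⟩
    · refine hx.2.trans ?_
      rw [zero_add, div_le_one hKR]
      exact_mod_cast hiK
    · apply bad_large
      apply bad_stable hR hyb
      have h5 : |x - y| ≤ 1 / K := by
        rw [abs_le]
        constructor <;> linarith
      calc |x - y| * N ≤ |x - y| * (ρ * K) := mul_le_mul_of_nonneg_left hK (abs_nonneg _)
        _ ≤ 1 / K * (ρ * K) := mul_le_mul_of_nonneg_right h5 (by positivity)
        _ = ρ := by field_simp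
  have hmp := (UnitAddCircle.measurePreserving_mk 0).measure_preimage
    (measurable_large R ρ).nullMeasurableSet
  rw [Measure.restrict_apply' measurableSet_Ioc, Set.inter_comm] at hmp
  have h6 : ENNReal.ofReal ((cells R ρ K).card / K) ≤ volume (large R ρ) := by
    rw [← hvol, ← hmp]
    exact measure_mono hsub
  have h7 : ((cells R ρ K).card : ℝ) / K ≤ volume.real (large R ρ) := by
    rw [measureReal_def]
    have i0 : IsProbabilityMeasure (volume : Measure UnitAddCircle) := ⟨UnitAddCircle.measure_univ⟩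
    have := ENNReal.toReal_mono (measure_ne_top _ _) h6
    rwa [ENNReal.toReal_ofReal (by positivity)] at this
  have h8 := vol_large R ρ hρ hρ1
  rw [div_le_iff₀ hKR] at h7
  have h9 : 0 ≤ (R.card : ℝ) * ρ := by positivity
  calc ((cells R ρ K).card : ℝ) * ((R.card : ℝ) * ρ)
      ≤ (volume.real (large R ρ) * K) * ((R.card : ℝ) * ρ) := mul_le_mul_of_nonneg_right h7 h9
    _ = ((R.card : ℝ) * ρ * volume.real (large R ρ)) * K := by ring
    _ ≤ 1 * K := mul_le_mul_of_nonneg_right h8 hKR.le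
    _ = K := one_mul _

lemma mem_cells {R : Finset ℕ} {ρ : ℝ} {K : ℕ} (hK0 : 0 < K) {x : ℝ} (hx0 : 0 < x) (hx1 : x ≤ 1)
    (hx : x ∈ BadR R (3 * ρ)) : ∃ i ∈ cells R ρ K, x ∈ Set.Ioc ((i : ℝ) / K) (((i : ℝ) + 1) / K) := by
  classical
  have hKR : (0 : ℝ) < K := by exact_mod_cast hK0
  have hc1 : 1 ≤ ⌈x * K⌉₊ := Nat.one_le_iff_ne_zero.2 (by
    intro h
    rw [Nat.ceil_eq_zero] at h
    have : 0 < x * K := by positivity
    linarith)
  have hc2 : ⌈x * K⌉₊ ≤ K := by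
    rw [Nat.ceil_le]
    nlinarith
  have hc3 : x * K ≤ ⌈x * K⌉₊ := Nat.le_ceil _
  have hc4 : (⌈x * K⌉₊ : ℝ) < x * K + 1 := Nat.ceil_lt_add_one (by positivity)
  have hcast : ((⌈x * K⌉₊ - 1 : ℕ) : ℝ) = (⌈x * K⌉₊ : ℝ) - 1 := by
    rw [Nat.cast_sub hc1]; simp
  have hmem : x ∈ Set.Ioc (((⌈x * K⌉₊ - 1 : ℕ) : ℝ) / K) ((((⌈x * K⌉₊ - 1 : ℕ) : ℝ) + 1) / K) := by
    rw [hcast]
    constructor
    · rw [div_lt_iff₀ hKR]; linarith
    · rw [le_div_iff₀ hKR]; linarith
  refine ⟨⌈x * K⌉₊ - 1, ?_, hmem⟩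
  rw [cells, mem_filter, mem_range]
  exact ⟨by omega, x, hmem, hx⟩

end Pool.Agent.K3h70.WB
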