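import Mathlib
import Pool.Agent.K3h70.WB.Cells

/-! # The dimension of the limsup of the bad sets (helper70) -/

set_option autoImplicit false

open MeasureTheory Finset Filter
open scoped ENNReal

namespace Pool.Agent.K3h70.WB

lemma dim_limsup_bad (R : ℕ → Finset ℕ) (hR : ∀ j, ∀ r ∈ R j, 2 * (r : ℝ) ≤ 2 ^ j)
    {c η : ℝ} (hc : 0 < c) {j₀ : ℕ}
    (hcard : ∀ j, j₀ ≤ j → c * ((2 : ℝ) ^ j) ^ (1 - η) ≤ (R j).card)
    {θ : ℝ} (hθ : 0 < θ) (hθ1 : θ < 1) {s : ℝ} (hs : 0 < s) (hs1 : 2 * θ + η < (1 + θ) * s) :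
    dimH {α : ℝ | α ∈ Set.Ioc (0 : ℝ) 1 ∧
      ∃ᶠ j in atTop, α ∈ BadR (R j) (3 * ((2 * 2 ^ j) ^ (-θ) / 3))} ≤ ENNReal.ofReal s := by
  classical
  set ρ : ℕ → ℝ := fun j => (2 * 2 ^ j : ℝ) ^ (-θ) / 3 with hρdef
  have hρ0 : ∀ j, 0 < ρ j := fun j => by simp only [hρdef]; positivity
  have hρ1 : ∀ j, ρ j ≤ 1 / 2 := fun j => by
    simp only [hρdef]
    have : (2 * 2 ^ j : ℝ) ^ (-θ) ≤ 1 := by
      apply Real.rpow_le_one_of_one_le_of_nonpos
      · have : (1 : ℝ) ≤ 2 ^ j := one_le_pow₀ (by norm_num)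
        linarith
      · linarith
    linarith
  set K : ℕ → ℕ := fun j => ⌈(2 : ℝ) ^ j / ρ j⌉₊ with hKdef
  have hX1 : ∀ j : ℕ, (1 : ℝ) ≤ 2 ^ j := fun j => one_le_pow₀ (by norm_num)
  have hXK : ∀ j : ℕ, (2 : ℝ) ^ j / ρ j = 3 * 2 ^ θ * ((2 : ℝ) ^ j) ^ (1 + θ) := by
    intro j
    simp only [hρdef]
    rw [Real.mul_rpow (by norm_num) (by positivity), Real.rpow_neg (by norm_num),
      Real.rpow_neg (by positivity), Real.rpow_add (by positivity), Real.rpow_one]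
    have h1 : (0 : ℝ) < 2 ^ θ := by positivity
    have h2 : (0 : ℝ) < ((2 : ℝ) ^ j) ^ θ := by positivity
    field_simp
  have h2θ : (1 : ℝ) ≤ 2 ^ θ := Real.one_le_rpow (by norm_num) hθ.le
  have h2θ' : (2 : ℝ) ^ θ ≤ 2 := by
    calc (2 : ℝ) ^ θ ≤ 2 ^ (1 : ℝ) := Real.rpow_le_rpow_of_exponent_le (by norm_num) hθ1.le
      _ = 2 := Real.rpow_one _
  have hXθ : ∀ j : ℕ, (1 : ℝ) ≤ ((2 : ℝ) ^ j) ^ (1 + θ) := fun j =>
    Real.one_le_rpow (hX1 j) (by linarith)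
  have hKlow : ∀ j, ((2 : ℝ) ^ j) ^ (1 + θ) ≤ K j := by
    intro j
    have h1 : (2 : ℝ) ^ j / ρ j ≤ K j := Nat.le_ceil _
    rw [hXK] at h1
    have := hXθ j
    nlinarith
  have hKup : ∀ j, (K j : ℝ) ≤ 7 * ((2 : ℝ) ^ j) ^ (1 + θ) := by
    intro j
    have h1 : (K j : ℝ) < (2 : ℝ) ^ j / ρ j + 1 :=
      Nat.ceil_lt_add_one (div_nonneg (by positivity) (hρ0 j).le)
    rw [hXK] at h1
    have := hXθ j
    nlinarith
  have hK0 : ∀ j, 0 < K j := by
    intro j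
    have h1 := hKlow j
    have h2 := hXθ j
    have h3 : (0 : ℝ) < K j := by linarith
    exact_mod_cast h3
  have hKρ : ∀ j, (2 : ℝ) ^ j ≤ ρ j * K j := by
    intro j
    have h1 : (2 : ℝ) ^ j / ρ j ≤ K j := Nat.le_ceil _
    rw [div_le_iff₀ (hρ0 j)] at h1
    linarith
  -- the number of cells
  set F : ℕ → Finset ℕ := fun j => if j₀ ≤ j then cells (R j) (ρ j) (K j) else ∅ with hF
  have hFcard : ∀ j, ((F j).card : ℝ) ≤ 42 / c * ((2 : ℝ) ^ j) ^ (2 * θ + η) := by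
    intro j
    simp only [hF]
    split_ifs with hj
    · have h1 := cells_card (hR j) (hρ0 j) (hρ1 j) (hK0 j) (hKρ j)
      have h2 := hcard j hj
      have hX0 : (0 : ℝ) < 2 ^ j := by positivity
      have h3 : c * ((2 : ℝ) ^ j) ^ (1 - η) * ρ j ≤ (R j).card * ρ j :=
        mul_le_mul_of_nonneg_right h2 (hρ0 j).le
      have h4 : ((cells (R j) (ρ j) (K j)).card : ℝ) * (c * ((2 : ℝ) ^ j) ^ (1 - η) * ρ j) ≤ K j :=
        (mul_le_mul_of_nonneg_left h3 (by positivity)).trans h1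
      have h5 : (1 : ℝ) / 6 * ((2 : ℝ) ^ j) ^ (-θ) ≤ ρ j := by
        simp only [hρdef]
        rw [Real.mul_rpow (by norm_num) (by positivity), Real.rpow_neg (by norm_num : (0 : ℝ) ≤ 2)]
        have h6 : (1 : ℝ) / 2 ≤ ((2 : ℝ) ^ θ)⁻¹ := by
          rw [one_div]
          exact inv_anti₀ (by positivity) h2θ'
        have h7 : (0 : ℝ) < ((2 : ℝ) ^ j) ^ (-θ) := by positivity
        nlinarith
      have h8 : ((cells (R j) (ρ j) (K j)).card : ℝ) *
          (c * ((2 : ℝ) ^ j) ^ (1 - η) * (1 / 6 * ((2 : ℝ) ^ j) ^ (-θ))) ≤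
          7 * ((2 : ℝ) ^ j) ^ (1 + θ) := by
        refine le_trans ?_ (h4.trans (hKup j))
        apply mul_le_mul_of_nonneg_left _ (by positivity)
        exact mul_le_mul_of_nonneg_left h5 (by positivity)
      have h9 : ((2 : ℝ) ^ j) ^ (1 + θ) =
          ((2 : ℝ) ^ j) ^ (2 * θ + η) * (((2 : ℝ) ^ j) ^ (1 - η) * ((2 : ℝ) ^ j) ^ (-θ)) := by
        rw [← Real.rpow_add hX0, ← Real.rpow_add hX0]
        congr 1
        ring
      rw [h9] at h8
      have h10 : (0 : ℝ) < ((2 : ℝ) ^ j) ^ (1 - η) * ((2 : ℝ) ^ j) ^ (-θ) := by positivity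
      have h11 : ((cells (R j) (ρ j) (K j)).card : ℝ) * (c / 6) *
          (((2 : ℝ) ^ j) ^ (1 - η) * ((2 : ℝ) ^ j) ^ (-θ)) ≤
          7 * ((2 : ℝ) ^ j) ^ (2 * θ + η) * (((2 : ℝ) ^ j) ^ (1 - η) * ((2 : ℝ) ^ j) ^ (-θ)) := by
        linarith
      have h12 := le_of_mul_le_mul_right h11 h10
      rw [div_mul_eq_mul_div, le_div_iff₀ hc]
      linarith
    · rw [Finset.card_empty]
      push_cast
      positivity
  -- the index set
  set d : (Σ j : ℕ, {i // i ∈ F j}) → ℝ := fun p => ((2 : ℝ) ^ p.1) ^ (-(1 + θ)) with hd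
  set U : (Σ j : ℕ, {i // i ∈ F j}) → Set ℝ := fun p =>
    Set.Ioc ((p.2.1 : ℝ) / K p.1) (((p.2.1 : ℝ) + 1) / K p.1) with hU
  have hsum : Summable fun p => d p ^ s := by
    rw [summable_sigma_of_nonneg (fun p => by simp only [hd]; positivity)]
    constructor
    · intro j
      exact Summable.of_finite
    · have h1 : ∀ j : ℕ, ∑' y : {i // i ∈ F j}, d ⟨j, y⟩ ^ s =
          (F j).card * (((2 : ℝ) ^ j) ^ (-(1 + θ))) ^ s := by
        intro j
        simp only [hd]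
        rw [tsum_fintype, Finset.sum_const, nsmul_eq_mul]
        simp
      simp only [h1]
      set σ : ℝ := (2 * θ + η) - (1 + θ) * s with hσ
      have hσ0 : σ < 0 := by rw [hσ]; linarith
      have h2 : Summable fun j : ℕ => 42 / c * ((2 : ℝ) ^ σ) ^ j := by
        apply Summable.mul_left
        apply summable_geometric_of_lt_one (by positivity)
        exact Real.rpow_lt_one_of_one_lt_of_neg (by norm_num) hσ0
      refine Summable.of_nonneg_of_le (fun j => by positivity) (fun j => ?_) h2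
      have hX0 : (0 : ℝ) < 2 ^ j := by positivity
      calc ((F j).card : ℝ) * (((2 : ℝ) ^ j) ^ (-(1 + θ))) ^ s
          ≤ (42 / c * ((2 : ℝ) ^ j) ^ (2 * θ + η)) * (((2 : ℝ) ^ j) ^ (-(1 + θ))) ^ s :=
            mul_le_mul_of_nonneg_right (hFcard j) (by positivity)
        _ = 42 / c * ((2 : ℝ) ^ σ) ^ j := by
            rw [← Real.rpow_mul hX0.le, mul_assoc, ← Real.rpow_add hX0]
            congr 1
            rw [← Real.rpow_natCast, ← Real.rpow_natCast, ← Real.rpow_mul (by norm_num),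
              ← Real.rpow_mul (by norm_num)]
            congr 1
            rw [hσ]
            ring
  have key := Pool.Agent.R479.DA.dimH_limsup U d (fun p => by simp only [hd]; positivity)
    (fun p => by
      simp only [hU, hd]
      rw [Real.ediam_Ioc]
      apply ENNReal.ofReal_le_ofReal
      have h1 := hKlow p.1
      have h2 := hXθ p.1
      have h3 : (((p.2.1 : ℝ) + 1) / K p.1) - ((p.2.1 : ℝ) / K p.1) = 1 / K p.1 := by ring
      rw [h3, Real.rpow_neg (by positivity), one_div]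
      exact inv_anti₀ (by linarith) h1) hs hsum
  refine (dimH_mono ?_).trans key
  rintro α ⟨hα, hfreq⟩
  simp only [Set.mem_ofPred_eq]
  intro hfin
  have h1 : (Sigma.fst '' {p : (Σ j : ℕ, {i // i ∈ F j}) | α ∈ U p}).Finite := hfin.image _
  obtain ⟨J, hJ⟩ := h1.bddAbove
  obtain ⟨j, hj, hjb⟩ := (Filter.frequently_atTop.1 hfreq) (max j₀ (J + 1))
  have hj0 : j₀ ≤ j := (le_max_left _ _).trans hj
  have hjJ : J + 1 ≤ j := (le_max_right _ _).trans hj
  obtain ⟨i, hi, hxi⟩ := mem_cells (hK0 j) hα.1 hα.2 hjb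
  have hi' : i ∈ F j := by
    simp only [hF]
    rw [if_pos hj0]
    exact hi
  have h2 : j ≤ J := hJ ⟨⟨j, i, hi'⟩, hxi, rfl⟩
  omega

end Pool.Agent.K3h70.WB
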