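import Mathlib
import Pool.Agent.K3h70.WA.Res

/-! # Approximation by few summands, and many sums of few summands (helper70) -/

set_option autoImplicit false

open Finset

namespace Pool.Agent.K3h70.WB

open Pool.Agent.K3h70.WA

/-- every `n ≤ X ^ B` is at distance at most `X / 4` from a sum of few elements -/
lemma near {κ K' x₀' : ℝ} (hκ : 0 < κ) (hκ1 : κ < 1) {B : ℝ} (hB : 1 ≤ B) :
    ∃ t : ℕ, (t : ℝ) ≤ (Real.log (2 * B) + 1) / κ ∧ ∃ X₀ : ℝ, ∀ A : Set ℕ, Gap κ K' x₀' A →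
      ∀ X : ℝ, X₀ ≤ X → ∀ n : ℕ, (n : ℝ) ≤ X ^ B →
        ∃ u : ℕ, Rep A t u ∧ u ≤ n ∧ (n : ℝ) - u ≤ X / 4 := by
  set K : ℝ := max K' 1 with hKdef
  set x₀ : ℝ := max x₀' 1 with hxdef
  have hK : 1 ≤ K := le_max_right _ _
  have hx₀ : 1 ≤ x₀ := le_max_right _ _
  have hK0 : 0 < K := by linarith
  obtain ⟨t, ht1, ht2⟩ := steps hκ hκ1 (show 0 < 1 / (2 * B) by positivity)
    (by rw [div_le_one (by linarith)]; linarith)
  rw [one_div_one_div] at ht2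
  refine ⟨t, ht2, ?_⟩
  have hX : ∃ X₀ : ℝ, ∀ X : ℝ, X₀ ≤ X → 4 * x₀ ≤ X ∧ 4 ≤ X ∧ 4 * K ^ (1 / κ) ≤ X ^ (1 / 2 : ℝ) := by
    have t3 := (tendsto_rpow_atTop (show (0 : ℝ) < 1 / 2 by norm_num)).eventually_ge_atTop
      (4 * K ^ (1 / κ))
    have e := (Filter.eventually_ge_atTop (4 * x₀)).and ((Filter.eventually_ge_atTop (4 : ℝ)).and t3)
    obtain ⟨X₀, hX₀⟩ := Filter.eventually_atTop.1 e
    exact ⟨X₀, hX₀⟩
  obtain ⟨X₀, hX₀⟩ := hX
  refine ⟨X₀, fun A hA' X hXX n hn => ?_⟩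
  have hA1 : Gap κ K' x₀ A := hA'.mono' (le_max_left _ _)
  have hA : Gap κ K x₀ A := hA1.mono (le_max_left _ _) (by linarith)
  obtain ⟨q1, q2, q3⟩ := hX₀ X hXX
  have hX1 : 1 ≤ X := by linarith
  have hXpos : 0 < X := by linarith
  obtain ⟨u, hu, hun, h⟩ := greedy hκ hκ1.le hK hA (X / 4) (by linarith) (by linarith) n t
  refine ⟨u, hu, hun, ?_⟩
  rcases h with h | h
  · exact h
  · refine h.trans ?_
    have h1 : K ^ ((1 - (1 - κ) ^ t) / κ) ≤ K ^ (1 / κ) := by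
      apply Real.rpow_le_rpow_of_exponent_le hK
      gcongr
      have : 0 ≤ (1 - κ) ^ t := pow_nonneg (by linarith) _
      linarith
    have h2 : (n : ℝ) ^ ((1 - κ) ^ t) ≤ X ^ (1 / 2 : ℝ) := by
      have h3 : 0 ≤ (1 - κ) ^ t := pow_nonneg (by linarith) _
      calc (n : ℝ) ^ ((1 - κ) ^ t) ≤ (X ^ B) ^ ((1 - κ) ^ t) :=
            Real.rpow_le_rpow (by positivity) hn h3
        _ = X ^ (B * (1 - κ) ^ t) := by rw [← Real.rpow_mul hXpos.le]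
        _ ≤ X ^ (1 / 2 : ℝ) := by
            apply Real.rpow_le_rpow_of_exponent_le hX1
            calc B * (1 - κ) ^ t ≤ B * (1 / (2 * B)) :=
                  mul_le_mul_of_nonneg_left ht1 (by linarith)
              _ = 1 / 2 := by field_simp
    have h4 : X ^ (1 / 2 : ℝ) * X ^ (1 / 2 : ℝ) = X := by
      rw [← Real.rpow_add hXpos]; norm_num
    have h5 : 0 < K ^ (1 / κ) := Real.rpow_pos_of_pos hK0 _
    have h6 : 0 < X ^ (1 / 2 : ℝ) := Real.rpow_pos_of_pos hXpos _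
    calc K ^ ((1 - (1 - κ) ^ t) / κ) * (n : ℝ) ^ ((1 - κ) ^ t)
        ≤ K ^ (1 / κ) * X ^ (1 / 2 : ℝ) := mul_le_mul h1 h2 (by positivity) h5.le
      _ ≤ X / 4 := by nlinarith

open Classical in
/-- the sums of at most `s` elements in `[1, X / 2]` -/
noncomputable def sums (A : Set ℕ) (s : ℕ) (X : ℝ) : Finset ℕ :=
  (Icc 1 ⌊X / 2⌋₊).filter (fun m => Rep A s m)

lemma sums_le {A : Set ℕ} {s : ℕ} {X : ℝ} (hX : 0 ≤ X) {r : ℕ} (hr : r ∈ sums A s X) :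
    2 * (r : ℝ) ≤ X := by
  classical
  rw [sums, mem_filter, mem_Icc] at hr
  have h1 := (Nat.le_floor_iff (by positivity : 0 ≤ X / 2)).1 hr.1.2
  linarith

/-- there are many sums of few elements -/
lemma many {κ K' x₀' : ℝ} (hκ : 0 < κ) (hκ1 : κ < 1) {η : ℝ} (hη : 0 < η) (hη1 : η ≤ 1 / 2) :
    ∃ s : ℕ, (s : ℝ) ≤ (Real.log (1 / η) + 1) / κ ∧ ∃ c : ℝ, 0 < c ∧ ∃ X₀ : ℝ, ∀ A : Set ℕ,
      Gap κ K' x₀' A → ∀ X : ℝ, X₀ ≤ X → c * X ^ (1 - η) ≤ (sums A s X).card := by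
  classical
  set K : ℝ := max K' 1 with hKdef
  set x₀ : ℝ := max x₀' 1 with hxdef
  have hK : 1 ≤ K := le_max_right _ _
  have hx₀ : 1 ≤ x₀ := le_max_right _ _
  obtain ⟨s, hs1, hs2⟩ := steps hκ hκ1 hη (by linarith)
  refine ⟨s, hs2, ?_⟩
  obtain ⟨c, hc, N₀, hcount⟩ := count (x₀ := x₀) hκ hκ1 hK s
  refine ⟨c / 4, by positivity, ?_⟩
  have hX : ∃ X₀ : ℝ, ∀ X : ℝ, X₀ ≤ X → 2 * N₀ ≤ X ∧ 2 ≤ X ∧ 4 / c ≤ X ^ (1 / 2 : ℝ) := by
    have t3 := (tendsto_rpow_atTop (show (0 : ℝ) < 1 / 2 by norm_num)).eventually_ge_atTop (4 / c)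
    have e := (Filter.eventually_ge_atTop (2 * N₀)).and ((Filter.eventually_ge_atTop (2 : ℝ)).and t3)
    obtain ⟨X₀, hX₀⟩ := Filter.eventually_atTop.1 e
    exact ⟨X₀, hX₀⟩
  obtain ⟨X₀, hX₀⟩ := hX
  refine ⟨X₀, fun A hA' X hXX => ?_⟩
  have hA1 : Gap κ K' x₀ A := hA'.mono' (le_max_left _ _)
  have hA : Gap κ K x₀ A := hA1.mono (le_max_left _ _) (by linarith)
  obtain ⟨q1, q2, q3⟩ := hX₀ X hXX
  have hX1 : 1 ≤ X := by linarith
  have hcnt : cnt A s (X / 2) ≤ (sums A s X).card + 1 := by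
    unfold cnt
    calc ((range (⌊X / 2⌋₊ + 1)).filter (fun m => Rep A s m)).card
        ≤ (insert 0 (sums A s X)).card := by
          apply Finset.card_le_card
          intro m hm
          rw [mem_filter, mem_range] at hm
          rw [mem_insert]
          rcases Nat.eq_zero_or_pos m with h | h
          · exact Or.inl h
          · right
            rw [sums, mem_filter, mem_Icc]
            exact ⟨⟨h, by omega⟩, hm.2⟩
      _ ≤ (sums A s X).card + 1 := Finset.card_insert_le _ _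
  have h1 : c * (X / 2) ^ (1 - (1 - κ) ^ s) ≤ cnt A s (X / 2) := hcount A hA (X / 2) (by linarith)
  have h2 : (X / 2) ^ (1 - η) ≤ (X / 2) ^ (1 - (1 - κ) ^ s) :=
    Real.rpow_le_rpow_of_exponent_le (by linarith) (by linarith)
  have h3 : 1 / 2 * X ^ (1 - η) ≤ (X / 2) ^ (1 - η) := by
    have e2 : (2 : ℝ) ^ (1 - η) ≤ 2 := by
      calc (2 : ℝ) ^ (1 - η) ≤ 2 ^ (1 : ℝ) :=
            Real.rpow_le_rpow_of_exponent_le (by norm_num) (by linarith)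
        _ = 2 := Real.rpow_one _
    have e3 : (0 : ℝ) < 2 ^ (1 - η) := by positivity
    have e4 : (0 : ℝ) < X ^ (1 - η) := Real.rpow_pos_of_pos (by linarith) _
    rw [Real.div_rpow (by linarith) (by norm_num), le_div_iff₀ e3]
    nlinarith
  have h4 : 4 / c ≤ X ^ (1 - η) :=
    q3.trans (Real.rpow_le_rpow_of_exponent_le hX1 (by linarith))
  have h5 : (cnt A s (X / 2) : ℝ) ≤ (sums A s X).card + 1 := by exact_mod_cast hcnt
  have h6 : c * (1 / 2 * X ^ (1 - η)) ≤ cnt A s (X / 2) :=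
    (mul_le_mul_of_nonneg_left (h3.trans h2) hc.le).trans h1
  rw [div_le_iff₀ hc] at h4
  linarith

end Pool.Agent.K3h70.WB
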