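import Mathlib
import Pool.Agent.K3h70.WB.Dim
import Pool.Agent.K3h70.WB.Near
import Pool.Agent.R479.DA.Exact

/-! # Fractional parts of sums of few elements (helper70) -/

set_option autoImplicit false

open MeasureTheory Finset Filter
open scoped ENNReal

namespace Pool.Agent.K3h70.WB

open Pool.Agent.K3h70.WA

/-- for all natural `n ≤ N ^ B` and all real `β` there is a sum `m` of at most `S` elements of `A`
(the list `l` gives the summands) with `|m - n| ≤ N` and with `α m` at distance at most `N ^ (-θ)` from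
`β` modulo `1` -/
def Approx (A : Set ℕ) (S B θ α : ℝ) (N : ℕ) : Prop :=
  ∀ n : ℕ, (n : ℝ) ≤ (N : ℝ) ^ B → ∀ β : ℝ, ∃ l : List ℕ, (∀ a ∈ l, a ∈ A) ∧ (l.length : ℝ) ≤ S ∧
    |((l.sum : ℕ) : ℝ) - n| ≤ N ∧ ∃ z : ℤ, |α * ((l.sum : ℕ) : ℝ) - β - z| ≤ (N : ℝ) ^ (-θ)

lemma approx_shift {A : Set ℕ} {S B θ α : ℝ} {N : ℕ} (w : ℤ) (h : Approx A S B θ (α + w) N) :
    Approx A S B θ α N := by
  intro n hn β
  obtain ⟨l, h1, h2, h3, z, h4⟩ := h n hn β
  refine ⟨l, h1, h2, h3, z - w * (l.sum : ℕ), ?_⟩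
  generalize l.sum = m at h4 ⊢
  have e : α * (m : ℝ) - β - ((z - w * (m : ℕ) : ℤ) : ℝ) = (α + w) * (m : ℝ) - β - z := by
    push_cast
    ring
  rw [e]
  exact h4

theorem upper (ε : ℝ) (hε : 0 < ε) (B : ℝ) (hB : 1 ≤ B) : ∃ C : ℝ, 0 < C ∧
    ∀ κ K x₀ : ℝ, 0 < κ → κ < 1 → ∀ A : Set ℕ, Gap κ K x₀ A → ∀ θ : ℝ, 0 < θ → θ < 1 →
      dimH {α : ℝ | ∃ᶠ N : ℕ in atTop, ¬ Approx A (C / κ) B θ α N} ≤
        ENNReal.ofReal (2 * θ / (1 + θ) + ε) := by
  classical
  set η : ℝ := min (ε / 2) (1 / 2) with hηdef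
  have hη : 0 < η := by rw [hηdef]; positivity
  have hη1 : η ≤ 1 / 2 := min_le_right _ _
  have hηε : η ≤ ε / 2 := min_le_left _ _
  set C : ℝ := (Real.log (2 * (2 * B)) + 1) + 2 * (Real.log (1 / η) + 1) with hCdef
  refine ⟨C, ?_, ?_⟩
  · have h1 : 0 ≤ Real.log (2 * (2 * B)) := Real.log_nonneg (by linarith)
    have h2 : 0 ≤ Real.log (1 / η) := Real.log_nonneg (by rw [le_div_iff₀ hη]; linarith)
    rw [hCdef]
    linarith
  intro κ K x₀ hκ hκ1 A hA θ hθ hθ1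
  obtain ⟨s, hs, c, hc, X₁, hmany⟩ := many (K' := K) (x₀' := x₀) hκ hκ1 hη hη1
  obtain ⟨t, ht, X₂, hnear⟩ := near (K' := K) (x₀' := x₀) hκ hκ1 (show (1 : ℝ) ≤ 2 * B by linarith)
  have htend : Tendsto (fun j : ℕ => (2 : ℝ) ^ j) atTop atTop :=
    tendsto_pow_atTop_atTop_of_one_lt (by norm_num)
  obtain ⟨j₁, hj₁⟩ := eventually_atTop.1
    ((htend.eventually_ge_atTop X₁).and (htend.eventually_ge_atTop X₂))
  set R : ℕ → Finset ℕ := fun j => sums A s (2 ^ j) with hRdef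
  set E₁ : Set ℝ := {α : ℝ | α ∈ Set.Ioc (0 : ℝ) 1 ∧
      ∃ᶠ j in atTop, α ∈ BadR (R j) (3 * ((2 * 2 ^ j) ^ (-θ) / 3))} with hE₁
  have hbound : dimH E₁ ≤ ENNReal.ofReal (2 * θ / (1 + θ) + ε) := by
    apply dim_limsup_bad R (fun j r hr => sums_le (by positivity) hr) hc (j₀ := j₁)
      (fun j hj => hmany A hA _ (hj₁ j hj).1) hθ hθ1 (by positivity)
    have : (1 + θ) * (2 * θ / (1 + θ) + ε) = 2 * θ + (1 + θ) * ε := by field_simp
    rw [this]
    nlinarith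
  -- the key step
  have hkey : ∀ α : ℝ, (∃ᶠ N : ℕ in atTop, ¬ Approx A (C / κ) B θ α N) →
      ∃ᶠ j in atTop, α ∈ BadR (R j) (3 * ((2 * 2 ^ j) ^ (-θ) / 3)) := by
    intro α hfreq
    by_contra hcon
    rw [Filter.not_frequently] at hcon
    obtain ⟨j₂, hj₂⟩ := eventually_atTop.1 hcon
    apply hfreq
    rw [Filter.eventually_atTop]
    refine ⟨2 ^ (max (max j₁ j₂) 1), fun N hN => ?_⟩
    rw [not_not]
    set j := Nat.log 2 N with hj
    have hN0 : N ≠ 0 := by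
      have : 0 < 2 ^ (max (max j₁ j₂) 1) := by positivity
      omega
    have hj3 : max (max j₁ j₂) 1 ≤ j := (Nat.le_log_iff_pow_le (by norm_num) hN0).2 hN
    have hjN : 2 ^ j ≤ N := Nat.pow_log_le_self 2 hN0
    have hNj : N < 2 ^ (j + 1) := Nat.lt_pow_succ_log_self (by norm_num) N
    have hjN' : (2 : ℝ) ^ j ≤ N := by exact_mod_cast hjN
    have hNj' : (N : ℝ) ≤ 2 * 2 ^ j := by
      have h1 : (N : ℝ) ≤ 2 ^ (j + 1) := by exact_mod_cast hNj.le
      rw [pow_succ] at h1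
      linarith
    have hNpos : (0 : ℝ) < N := by exact_mod_cast Nat.pos_of_ne_zero hN0
    have hj1 : j₁ ≤ j := (le_max_left _ _).trans ((le_max_left _ _).trans hj3)
    have hj2 : j₂ ≤ j := (le_max_right _ _).trans ((le_max_left _ _).trans hj3)
    have hj0 : 1 ≤ j := (le_max_right _ _).trans hj3
    have h2j : (2 : ℝ) ≤ 2 ^ j := by
      calc (2 : ℝ) = 2 ^ 1 := (pow_one _).symm
        _ ≤ 2 ^ j := pow_le_pow_right₀ (by norm_num) hj0
    intro n hn β
    have hn' : (n : ℝ) ≤ ((2 : ℝ) ^ j) ^ (2 * B) := by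
      refine hn.trans ?_
      rw [Real.rpow_mul (by positivity)]
      apply Real.rpow_le_rpow hNpos.le _ (by linarith)
      rw [Real.rpow_two]
      nlinarith
    obtain ⟨u, ⟨lu, hlu1, hlu2, hlu3⟩, hun, hu⟩ := hnear A hA _ (hj₁ j hj1).2 n hn'
    have hgood := hj₂ j hj2
    have hgood' : ∃ r ∈ R j, ∃ r' ∈ R j, ∃ z : ℤ,
        |α * ((r : ℝ) + r') - (β - α * u) - z| ≤ 3 * ((2 * 2 ^ j) ^ (-θ) / 3) := by
      by_contra hno
      apply hgood
      refine ⟨β - α * u, fun r hr r' hr' z => ?_⟩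
      by_contra hle
      exact hno ⟨r, hr, r', hr', z, not_lt.1 hle⟩
    obtain ⟨r, hr, r', hr', z, hz⟩ := hgood'
    have hr1 := sums_le (by positivity) hr
    have hr1' := sums_le (by positivity) hr'
    rw [hRdef] at hr hr'
    simp only [sums, mem_filter] at hr hr'
    obtain ⟨lr, hlr1, hlr2, hlr3⟩ := hr.2
    obtain ⟨lr', hlr1', hlr2', hlr3'⟩ := hr'.2
    have hsum : (lu ++ (lr ++ lr')).sum = u + (r + r') := by
      rw [List.sum_append, List.sum_append, hlu3, hlr3, hlr3']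
    refine ⟨lu ++ (lr ++ lr'), ?_, ?_, ?_, z, ?_⟩
    · intro a ha
      rw [List.mem_append, List.mem_append] at ha
      rcases ha with h | h | h
      · exact hlu1 a h
      · exact hlr1 a h
      · exact hlr1' a h
    · have h1 : (lu ++ (lr ++ lr')).length ≤ t + 2 * s := by
        rw [List.length_append, List.length_append]; omega
      have h2 : ((lu ++ (lr ++ lr')).length : ℝ) ≤ t + 2 * s := by exact_mod_cast h1
      rw [hCdef, add_div, mul_div_assoc]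
      linarith
    · rw [hsum]
      push_cast
      have h3 : (0 : ℝ) ≤ r := by positivity
      have h4 : (0 : ℝ) ≤ r' := by positivity
      have h5 : (u : ℝ) ≤ n := by exact_mod_cast hun
      rw [abs_le]
      constructor <;> linarith
    · rw [hsum]
      push_cast
      have e : α * ((u : ℝ) + (r + r')) - β - z = α * ((r : ℝ) + r') - (β - α * u) - z := by ring
      rw [e]
      refine hz.trans ?_
      have h6 : (2 * 2 ^ j : ℝ) ^ (-θ) ≤ (N : ℝ) ^ (-θ) :=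
        Real.rpow_le_rpow_of_nonpos hNpos hNj' (by linarith)
      linarith
  -- the union over the translates
  have hsub : {α : ℝ | ∃ᶠ N : ℕ in atTop, ¬ Approx A (C / κ) B θ α N} ⊆
      ⋃ w : ℤ, (IsometryEquiv.addRight (w : ℝ)) '' E₁ := by
    intro α hα
    rw [Set.mem_iUnion]
    refine ⟨⌈α⌉ - 1, α - (⌈α⌉ - 1 : ℤ), ⟨⟨?_, ?_⟩, hkey _ ?_⟩, ?_⟩
    · have := Int.ceil_lt_add_one α
      push_cast
      linarith
    · have := Int.le_ceil α
      push_cast
      linarith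
    · refine Filter.Frequently.mono hα fun N hN hgood => hN ?_
      apply approx_shift (-(⌈α⌉ - 1 : ℤ))
      convert hgood using 1
      push_cast
      ring
    · simp
  refine (dimH_mono hsub).trans ?_
  rw [dimH_iUnion]
  refine iSup_le fun w => ?_
  rw [IsometryEquiv.dimH_image]
  exact hbound

theorem lower (A : Set ℕ) (S B : ℝ) {θ : ℝ} (hθ : 0 < θ) (hθ1 : θ < 1) :
    ENNReal.ofReal (2 * θ / (1 + θ)) ≤
      dimH {α : ℝ | ∃ᶠ N : ℕ in atTop, ¬ Approx A S B θ α N} := by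
  by_contra hcon
  rw [not_le] at hcon
  obtain ⟨s, hs0, hs1, hs2⟩ := ENNReal.lt_iff_exists_real_btwn.1 hcon
  have hs0' : 0 < s := by
    rcases hs0.eq_or_lt with h | h
    · exfalso
      rw [← h, ENNReal.ofReal_zero] at hs1
      exact not_lt_zero hs1
    · exact h
  have hs3 : s < 2 * θ / (1 + θ) := (ENNReal.ofReal_lt_ofReal_iff (by positivity)).1 hs2
  set τ : ℝ := 2 / s with hτ
  have hτ0 : 0 < τ := by positivity
  have hs4 : s < 1 := by
    refine hs3.trans ?_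
    rw [div_lt_one (by linarith)]
    linarith
  have hdim := Pool.Agent.R479.DA.dim_exact (lam := 3) (B := 1) (τ := τ) (by norm_num) le_rfl
    one_pos hτ0
  have h2 : min 1 ((3 - 1) / τ) = s := by
    rw [hτ]
    have : (3 - 1) / (2 / s) = s := by field_simp; norm_num
    rw [this]
    exact min_eq_right hs4.le
  rw [h2] at hdim
  apply not_le.2 hs1
  rw [← hdim]
  apply dimH_mono
  -- the inclusion
  have hτθ : 1 < θ * (τ - 1) := by
    rw [lt_div_iff₀ (by linarith)] at hs3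
    have : θ * (τ - 1) = θ * (2 - s) / s := by rw [hτ]; field_simp
    rw [this, lt_div_iff₀ hs0']
    nlinarith
  have hτ1 : 0 < τ - 1 := by
    by_contra h
    nlinarith
  intro ξ hξ
  simp only [Set.mem_ofPred_eq]
  rw [Filter.frequently_atTop]
  intro N₀
  -- a large denominator
  have hlarge : ∃ Q : ℕ, ∀ q : ℕ, Q ≤ q → (1 : ℝ) ≤ q ∧ (4 * (N₀ + 1 : ℝ)) ≤ (q : ℝ) ^ (τ - 1) ∧
      8 ≤ (q : ℝ) ^ (τ - 1) ∧ 4 * (8 : ℝ) ^ θ < (q : ℝ) ^ (θ * (τ - 1) - 1) := by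
    have t1 : Tendsto (fun q : ℕ => (q : ℝ)) atTop atTop := tendsto_natCast_atTop_atTop
    have t2 := (tendsto_rpow_atTop hτ1).comp t1
    have t3 := (tendsto_rpow_atTop (show 0 < θ * (τ - 1) - 1 by linarith)).comp t1
    obtain ⟨Q, hQ⟩ := eventually_atTop.1 ((t1.eventually_ge_atTop 1).and
      ((t2.eventually_ge_atTop (4 * (N₀ + 1 : ℝ))).and ((t2.eventually_ge_atTop 8).and
      (t3.eventually_gt_atTop (4 * (8 : ℝ) ^ θ)))))
    exact ⟨Q, hQ⟩
  obtain ⟨Q, hQ⟩ := hlarge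
  have hex : ∃ t : ℕ × ℕ, t ∈ Pool.Agent.R479.DA.Sm 1 3 ∧
      |ξ - (t.1 : ℝ) / t.2| ≤ (t.2 : ℝ) ^ (-τ) ∧ Q ≤ t.2 := by
    by_contra hno
    apply hξ
    apply Set.Finite.subset ((Finset.range Q ×ˢ Finset.range Q).finite_toSet)
    rintro ⟨p, q⟩ ⟨h3, h4⟩
    have h5 : q < Q := by
      by_contra h6
      exact hno ⟨(p, q), h3, h4, not_lt.1 h6⟩
    obtain ⟨-, h6, -, -⟩ := h3
    simp only [Finset.coe_product, Set.mem_prod, Finset.mem_coe, Finset.mem_range] at h6 ⊢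
    omega
  obtain ⟨⟨p, q⟩, ⟨hp0, hpq, hcop, -⟩, hpq2, hqQ⟩ := hex
  simp only at hp0 hpq hcop hpq2 hqQ
  obtain ⟨hq1, hq2, hq3, hq4⟩ := hQ q hqQ
  have hqpos : (0 : ℝ) < q := by linarith
  set N : ℕ := ⌊(q : ℝ) ^ (τ - 1) / 4⌋₊ with hN
  have hN1 : (N : ℝ) ≤ (q : ℝ) ^ (τ - 1) / 4 := Nat.floor_le (by positivity)
  have hN2 : (q : ℝ) ^ (τ - 1) / 4 < N + 1 := Nat.lt_floor_add_one _
  have hN3 : (q : ℝ) ^ (τ - 1) / 8 ≤ N := by linarith
  have hN4 : N₀ ≤ N := by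
    apply Nat.le_floor
    linarith
  refine ⟨N, hN4, fun happ => ?_⟩
  obtain ⟨l, -, -, hl, z, hz⟩ := happ 0 (by simp; positivity) (1 / (2 * q))
  set m := l.sum with hm
  have hmN : (m : ℝ) ≤ N := by
    rw [Nat.cast_zero, sub_zero] at hl
    exact (le_abs_self _).trans hl
  have hm0 : (0 : ℝ) ≤ m := by positivity
  -- the precision
  have hprec : (N : ℝ) ^ (-θ) < 1 / (4 * q) := by
    have h3 : (N : ℝ) ^ (-θ) ≤ ((q : ℝ) ^ (τ - 1) / 8) ^ (-θ) :=
      Real.rpow_le_rpow_of_nonpos (by positivity) hN3 (by linarith)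
    refine lt_of_le_of_lt h3 ?_
    rw [Real.rpow_neg (by positivity), one_div]
    apply inv_strictAnti₀ (by positivity)
    rw [Real.div_rpow (by positivity) (by norm_num), ← Real.rpow_mul hqpos.le,
      lt_div_iff₀ (by positivity)]
    have h4 : (q : ℝ) ^ ((τ - 1) * θ) = (q : ℝ) ^ (θ * (τ - 1) - 1) * q := by
      rw [← Real.rpow_add_one hqpos.ne']
      congr 1
      ring
    rw [h4]
    nlinarith
  -- the error
  have herr : |(ξ - (p : ℝ) / q) * m| ≤ 1 / (4 * q) := by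
    rw [abs_mul, abs_of_nonneg hm0]
    calc |ξ - (p : ℝ) / q| * m ≤ (q : ℝ) ^ (-τ) * ((q : ℝ) ^ (τ - 1) / 4) :=
          mul_le_mul hpq2 (hmN.trans hN1) hm0 (by positivity)
      _ = 1 / (4 * q) := by
          rw [mul_div_assoc', ← Real.rpow_add hqpos]
          have : -τ + (τ - 1) = -1 := by ring
          rw [this, Real.rpow_neg_one]
          field_simp
  have hmain : (1 : ℝ) / (2 * q) ≤ |(p : ℝ) / q * m - 1 / (2 * q) - z| := by
    have e : (p : ℝ) / q * m - 1 / (2 * q) - z = ((2 * (p * m - q * z) - 1 : ℤ) : ℝ) / (2 * q) := by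
      push_cast
      field_simp
      ring
    rw [e, abs_div, abs_of_pos (by positivity : (0 : ℝ) < 2 * q)]
    apply div_le_div_of_nonneg_right _ (by positivity)
    rw [← Int.cast_abs]
    have h5 : (1 : ℤ) ≤ |2 * ((p : ℤ) * m - q * z) - 1| := by
      apply Int.one_le_abs
      omega
    exact_mod_cast h5
  have e2 : (p : ℝ) / q * m - 1 / (2 * q) - z =
      (ξ * m - 1 / (2 * q) - z) - (ξ - (p : ℝ) / q) * m := by ring
  rw [e2] at hmain
  have h6 := abs_sub (ξ * m - 1 / (2 * q) - z) ((ξ - (p : ℝ) / q) * m)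
  have h7 : (1 : ℝ) / (2 * q) = 1 / (4 * q) + 1 / (4 * q) := by field_simp; norm_num
  linarith

end Pool.Agent.K3h70.WB
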